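import Pool.Agent.H442R2.LP.Gap
import Pool.Agent.H410R2.ENFin

/-!
Primes isolated by `C log N` on both sides, in residue classes to prime moduli up to
`N^(14/27 - ε)`.
-/

set_option autoImplicit false

namespace Pool.Agent.Results.MP_45ff98_nt.IsolatedPrimesInClasses

open Finset

open Classical in
/-- the primes `p ≤ N`, `p ≡ b (mod q)`, for which every other prime is at distance more than
`C log N` from `p` -/
noncomputable def isolated (C : ℝ) (N q : ℕ) (b : ℤ) : Finset ℕ :=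
  (Icc 1 N).filter (fun p : ℕ => p.Prime ∧ (p : ℤ) ≡ b [ZMOD q] ∧
    ∀ p' : ℕ, p'.Prime → p' ≠ p → C * Real.log N < |(p : ℝ) - p'|)

open Classical in
/-- the primes `q ∈ (Q, 2Q]`, `q ∤ b`, with fewer than `c N/(q log N)` isolated primes `p ≤ N` in
the class `b` modulo `q` -/
noncomputable def badModuli (C c : ℝ) (N Q : ℕ) (b : ℤ) : Finset ℕ :=
  (Ioc Q (2 * Q)).filter (fun q : ℕ => q.Prime ∧ ¬ (q : ℤ) ∣ b ∧
    ((isolated C N q b).card : ℝ) < c * (N / (q * Real.log N)))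

/-- **Isolated primes in classes to prime moduli beyond the square root.** -/
theorem result : ∀ C : ℝ, 0 < C → ∃ c : ℝ, 0 < c ∧ ∀ θ ε δ : ℝ, θ < 14 / 27 → 0 < ε → 0 < δ →
    ∃ C₁ : ℝ, ∀ N : ℕ, 3 ≤ N → ∀ Q : ℕ, (N : ℝ) ^ ε ≤ Q → 2 * (Q : ℝ) ≤ (N : ℝ) ^ θ →
    (((Icc (-(N : ℤ)) N).filter (fun b : ℤ =>
      δ * Q / Real.log N < ((badModuli C c N Q b).card : ℝ))).card : ℝ) ≤
      C₁ * Real.log N ^ 2 := by
  intro C hC
  obtain ⟨c, hc, h⟩ := Pool.Agent.H442R2.LP.gap_of Pool.Agent.H410R2.EN.pFinal C hC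
  refine ⟨c, hc, ?_⟩
  have h1 : ∀ (N q : ℕ) (b : ℤ), isolated C N q b = Pool.Agent.H442R2.LP.iso C N q b := by
    intro N q b
    ext p
    rw [Pool.Agent.H442R2.LP.mem_iso]
    unfold isolated
    simp only [Finset.mem_filter, Finset.mem_Icc]
  have h2 : ∀ (N Q : ℕ) (b : ℤ), badModuli C c N Q b = Pool.Agent.H442R2.LP.badq C c N Q b := by
    intro N Q b
    ext q
    rw [Pool.Agent.H442R2.LP.mem_badq]
    unfold badModuli
    simp only [Finset.mem_filter, Finset.mem_Ioc, h1]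
  simp only [h2]
  exact h

end Pool.Agent.Results.MP_45ff98_nt.IsolatedPrimesInClasses
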