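import Pool.Agent.H749R6.AM.Fin

/-! Large gaps between primes near almost all multiples of almost every real.  For all
`0 < δ < 1`, `C > 0` and `0 < ε < 1` there are `L, κ > 0` such that for all large `Y` and all
`x ∈ [Y, 2Y]` outside a set of measure at most `Y ^ (1 - κ)`, all but at most `ε Y ^ δ` of the
`k ≤ Y ^ δ` have a real point `z` within `L log Y` of `k x` with no prime within `C log Y` of it. -/

set_option autoImplicit false

namespace Pool.Agent.Results.MP_45ff98_nt.LargeGapsNearMultiples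

open MeasureTheory

theorem result : ∀ (δ C ε : ℝ), 0 < δ → δ < 1 → 0 < C → 0 < ε → ε < 1 →
    ∃ L κ : ℝ, 0 < L ∧ 0 < κ ∧
      ∃ Y₀ : ℝ, ∀ Y : ℝ, Y₀ ≤ Y →
        ∃ E : Set ℝ, MeasurableSet E ∧ volume E ≤ ENNReal.ofReal (Y ^ (1 - κ)) ∧
        ∀ x : ℝ, Y ≤ x → x ≤ 2 * Y → x ∉ E →
          ({k : ℕ | (k : ℝ) ≤ Y ^ δ ∧ ¬ ∃ z : ℝ, |z - k * x| ≤ L * Real.log Y ∧
            ∀ p : ℕ, p.Prime → C * Real.log Y < |z - p|}.ncard : ℝ) ≤ ε * Y ^ δ :=
  Pool.Agent.H749R6.AM.multiples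

end Pool.Agent.Results.MP_45ff98_nt.LargeGapsNearMultiples
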