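import Pool.Agent.H601R2.RealWin

set_option autoImplicit false

/-!
The number of primes in `(x, x + (log x)^2)` and in shorter intervals `(x, x + c L(x))` of record
length, for real `x`.
-/

open MeasureTheory

namespace Pool.Agent.Results.MP_45ff98_nt.RealIntervals

/-- The number of primes `p` with `a < p < b`. -/
noncomputable def primesIn (a b : ℝ) : ℕ := {p : ℕ | p.Prime ∧ a < p ∧ (p : ℝ) < b}.ncard

/-- `L(x) = log x (log log x)^2 log log log log x / (log log log x)^2`. -/
noncomputable def L (x : ℝ) : ℝ :=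
  Real.log x * (Real.log (Real.log x)) ^ 2 * Real.log (Real.log (Real.log (Real.log x))) /
    (Real.log (Real.log (Real.log x))) ^ 2

/-- First part: for every `j` there is `c > 0` such that for all large `X` the real `x` in `(X, 4X)`
for which `(x, x + c L(x))` contains exactly `j` primes form a set of measure at least `X^(7/8)`
(`j = 0`: no prime).

Second part: for every `κ > e^γ / 2 = 0.8905...` and `η > 0`, for all large `X`, the real `x` in
`(8, X]` for which `(x, x + (log x)^2)` contains at most `κ log x` primes form a set of measure at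
least `X^(1-η)`.

Third part: the same for at least `κ log x` primes, for every `0 < κ < 1.07`. -/
theorem result :
    (∀ j : ℕ, ∃ c : ℝ, 0 < c ∧ ∃ X₀ : ℝ, ∀ X : ℝ, X₀ ≤ X →
      ENNReal.ofReal (X ^ (7 / 8 : ℝ)) ≤
        volume {x : ℝ | X < x ∧ x < 4 * X ∧ primesIn x (x + c * L x) = j}) ∧
    (∀ κ η : ℝ, Real.exp Real.eulerMascheroniConstant / 2 < κ → 0 < η →
      ∃ X₀ : ℝ, ∀ X : ℝ, X₀ ≤ X → ENNReal.ofReal (X ^ (1 - η)) ≤
        volume {x : ℝ | 8 < x ∧ x ≤ X ∧
          (primesIn x (x + (Real.log x) ^ 2) : ℝ) ≤ κ * Real.log x}) ∧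
    (∀ κ η : ℝ, 0 < κ → κ < 1.07 → 0 < η →
      ∃ X₀ : ℝ, ∀ X : ℝ, X₀ ≤ X → ENNReal.ofReal (X ^ (1 - η)) ≤
        volume {x : ℝ | 8 < x ∧ x ≤ X ∧
          κ * Real.log x ≤ (primesIn x (x + (Real.log x) ^ 2) : ℝ)}) :=
  ⟨Pool.Agent.H601R2.RealWin.exact, fun κ η h1 h2 => Pool.Agent.H601R2.RealWin.poor κ η h1 h2,
    fun κ η h1 h2 h3 => Pool.Agent.H601R2.RealWin.rich κ η h1 h2 h3⟩

end Pool.Agent.Results.MP_45ff98_nt.RealIntervals
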