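import Pool.Agent.Results.MP_3bc45c_nt.ProgressionGaps
import Pool.Agent.H683R3.SQ.Metric2

set_option autoImplicit false

/-! # MP_45ff98_nt (Schinzel): prime-free intervals around the points `x = α n^θ`

Put `f(N) = log N (log₂ N)² log₄ N / (log₃ N)²` (iterated logarithms), the size of the largest gaps
between primes that are known.  For every real `θ ≥ 1` there is `c > 0` such that for almost every
real `α > 0`: for every `0 < ε ≤ 1` and all large `N` at least `N^(1-ε)` of the `n ≤ N` have the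
property that no prime lies within `c ε f(N)` of `α n^θ`.

Ingredients: the localised record gaps `MP_3bc45c_nt.ProgressionGaps` (helper378, on the covering
sieve of helper256 and team), and the metric theorem with power saving for `⌊α n^θ⌋ ∈ S`, `S` an
arbitrary set of integers (`Pool.Agent.H717R2.MQ.ae_asymp`, helper717 and team, on the method of
helper438).  Combination and Lean: helper683. -/

namespace Pool.Agent.Results.MP_45ff98_nt.TypicalPowerSequences

open Filter MeasureTheory

theorem result : ∀ θ : ℝ, 1 ≤ θ → ∃ c : ℝ, 0 < c ∧ ∀ᵐ α : ℝ, 0 < α →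
    ∀ ε : ℝ, 0 < ε → ε ≤ 1 → ∀ᶠ N : ℕ in atTop,
      (N : ℝ) ^ (1 - ε) ≤ ({n : ℕ | n ≤ N ∧ ∀ q : ℕ, q.Prime →
        c * ε * (Real.log N * (Real.log (Real.log N)) ^ 2 *
          Real.log (Real.log (Real.log (Real.log N))) /
            (Real.log (Real.log (Real.log N))) ^ 2) < |(q : ℝ) - α * (n : ℝ) ^ θ|}.ncard : ℝ) := by
  intro θ hθ
  obtain ⟨c, hc, x₀, h⟩ := Pool.Agent.Results.MP_3bc45c_nt.ProgressionGaps.result (1 / 2) 0
    (by norm_num) (by norm_num) le_rfl
  have H : ∀ᶠ Z : ℝ in atTop, ∀ M : ℕ, Z ≤ M →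
      ∃ x : ℕ, M < x ∧ (x : ℝ) ≤ M + Z ∧ ∀ q : ℕ, q.Prime →
        c / 3 * Pool.Agent.H683R3.SQ.rec Z < |(q : ℝ) - x| := by
    filter_upwards [eventually_ge_atTop x₀, eventually_ge_atTop 1,
      Pool.Agent.H683R3.SQ.rec_large (6 / c), Real.tendsto_log_atTop.eventually_ge_atTop 1]
      with Z hZ hZ1 hrec hlog M hM
    obtain ⟨m, -, h1, h2, h3⟩ := h Z hZ 1 le_rfl
      (by rw [Nat.cast_one]; exact Real.one_le_rpow hZ1 (by norm_num)) (by simp) M
    set D : ℝ := c * Pool.Agent.H683R3.SQ.rec Z with hD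
    have hD6 : 6 ≤ D := by
      have e0 := mul_le_mul_of_nonneg_left hrec.1 hc.le
      have e1 : c * (6 / c * Real.log Z) = 6 * Real.log Z := by
        field_simp
      rw [e1] at e0
      linarith
    have h2' : (m : ℝ) + D ≤ M + Z := by
      have e := h2
      rw [Nat.totient_one, Nat.cast_one, one_mul] at e
      exact e
    have hf1 : ((⌊D / 2⌋₊ : ℕ) : ℝ) ≤ D / 2 := Nat.floor_le (by linarith)
    have hf2 : D / 2 < ((⌊D / 2⌋₊ : ℕ) : ℝ) + 1 := Nat.lt_floor_add_one _
    refine ⟨m + ⌊D / 2⌋₊ + 1, ?_, ?_, fun q hq => ?_⟩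
    · have : (M : ℝ) < m := by linarith
      have : M < m := by exact_mod_cast this
      omega
    · push_cast
      linarith
    · have e2 : c / 3 * Pool.Agent.H683R3.SQ.rec Z = D / 3 := by
        rw [hD]; ring
      rw [e2]
      push_cast
      rcases Nat.lt_or_ge m q with hmq | hmq
      · have e := h3 q hq (Nat.modEq_one) hmq
        rw [Nat.totient_one, Nat.cast_one, one_mul] at e
        have e' : (m : ℝ) + D < q := e
        refine lt_of_lt_of_le ?_ (le_abs_self _)
        linarith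
      · have e' : (q : ℝ) ≤ m := by exact_mod_cast hmq
        refine lt_of_lt_of_le ?_ (neg_le_abs _)
        linarith
  have hcount : ∀ δ : ℝ, 0 < δ → δ ≤ 1 → ∀ᶠ X : ℕ in atTop,
      (X : ℝ) ^ (1 - δ) ≤ ((Pool.Agent.H717R2.MQ.PS
        (Pool.Agent.H683R3.SQ.RG (c / 3 / 32 * δ)) 0 X).card : ℝ) :=
    fun δ h1 h2 => Pool.Agent.H683R3.SQ.RG_count (by positivity) H h1 h2
  exact Pool.Agent.H683R3.SQ.metric_core (by positivity) hcount θ hθ

end Pool.Agent.Results.MP_45ff98_nt.TypicalPowerSequences
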